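import Pool.Agent.H565R2.CO.Fin
import Pool.Agent.H834V.Adapt

set_option autoImplicit false

/-!
The perfect-set form of the Vaught conjecture for linearly ordered structures axiomatised in
two-variable logic with counting, first-order or infinitary.
-/

namespace Pool.Agent.Results.MP_5df2c5_lc.CountingTwoVariableOrders

open FirstOrder Set Pool.Agent.H834V
open Pool.Agent.H565R2.FO2 (Interp Code toI ofI toI_ofI Iso)
open Pool.Agent.H565R2.CO (C2 Rl Md KK SLO)
open Pool.Agent.H565R2.LO2 (PerfK rho SPO vec_pick)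

/-- The structure satisfies the universal closure of the two-variable formula `φ`. -/
def Holds {L : FirstOrder.Language.{0, 0}} (S : L.Structure ℕ) (φ : C2 L) : Prop :=
  ∀ x y : ℕ, Rl (rel S) φ x y

/-- The binary relation symbol `R` is interpreted by a strict linear order. -/
def Ordered {L : FirstOrder.Language.{0, 0}} (S : L.Structure ℕ) (R : L.Relations 2) : Prop :=
  IsStrictTotalOrder ℕ fun x y => @FirstOrder.Language.Structure.RelMap L ℕ S 2 R ![x, y]

theorem ordered_iff {L : FirstOrder.Language.{0, 0}} (S : L.Structure ℕ) (R : L.Relations 2) :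
    Ordered S R ↔ SLO (rho (rel S) R) := by
  constructor
  · intro h
    refine ⟨⟨fun u hu => h.irrefl u hu, fun u v w h1 h2 => h.trans u v w h1 h2⟩,
      fun u w huw => ?_⟩
    by_contra hc
    rw [not_or] at hc
    exact huw (h.toTrichotomous.trichotomous u w hc.1 hc.2)
  · rintro ⟨⟨h1, h2⟩, h3⟩
    exact { trichotomous := fun u w h4 h5 => by
              by_contra h6
              rcases h3 u w h6 with h7 | h7
              · exact h4 h7
              · exact h5 h7
            irrefl := h1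
            trans := h2 }

theorem result : ∀ (L : FirstOrder.Language.{0, 0}), Countable L.Symbols → L.IsRelational →
    Finite (L.Relations 2) → ∀ (R : L.Relations 2) (T : L.Theory) (Ψ : Set (C2 L)),
      Ψ.Countable →
      (∀ σ ∈ T, ∃ φ : C2 L, ∀ S : L.Structure ℕ, Ordered S R →
        (@FirstOrder.Language.Sentence.Realize L ℕ S σ ↔ Holds S φ)) →
      (∃ g : ℕ → L.Structure ℕ, ∀ S : L.Structure ℕ, Ordered S R →
          @FirstOrder.Language.Theory.Model L ℕ S T → (∀ ψ ∈ Ψ, Holds S ψ) →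
            ∃ n : ℕ, Nonempty (@FirstOrder.Language.Equiv L ℕ ℕ S (g n))) ∨
      (∃ f : (ℕ → Bool) → L.Structure ℕ,
          (∀ x : ℕ → Bool, Ordered (f x) R ∧ @FirstOrder.Language.Theory.Model L ℕ (f x) T ∧
            ∀ ψ ∈ Ψ, Holds (f x) ψ) ∧
          (∀ x y : ℕ → Bool,
              Nonempty (@FirstOrder.Language.Equiv L ℕ ℕ (f x) (f y)) → x = y) ∧
          (∀ (n : ℕ) (Q : L.Relations n) (a : Fin n → ℕ),
              IsClopen {x : ℕ → Bool | @FirstOrder.Language.Structure.RelMap L ℕ (f x) n Q a})) := by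
  intro L hL hR hfin R T Ψ hΨ hT
  classical
  have hRc : ∀ n, Countable (L.Relations n) := countable_relations hL
  have hsent : Countable L.Sentence := countable_sentences hL
  choose F hF using hT
  let A : Set (C2 L) := insert (C2.eq false false) (Ψ ∪ {φ | ∃ σ, ∃ hσ : σ ∈ T, F σ hσ = φ})
  have hAc : A.Countable := by
    refine Set.Countable.insert _ (hΨ.union ?_)
    have : {φ | ∃ σ, ∃ hσ : σ ∈ T, F σ hσ = φ} =
        Set.range (fun σ : T => F σ.1 σ.2) := by
      ext φ
      constructor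
      · rintro ⟨σ, hσ, h⟩; exact ⟨⟨σ, hσ⟩, h⟩
      · rintro ⟨σ, h⟩; exact ⟨σ.1, σ.2, h⟩
    rw [this]
    exact countable_range _
  obtain ⟨e, he⟩ := hAc.exists_eq_range ⟨_, mem_insert _ _⟩
  have hmod : ∀ S : L.Structure ℕ, Ordered S R → (Holds S (C2.inf e) ↔
      (@FirstOrder.Language.Theory.Model L ℕ S T ∧ ∀ ψ ∈ Ψ, Holds S ψ)) := by
    intro S hS
    have h0 : Holds S (C2.inf e) ↔ ∀ φ ∈ A, Holds S φ := by
      rw [he]
      constructor
      · rintro h _ ⟨n, rfl⟩ x y
        exact h x y n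
      · intro h x y n
        exact h (e n) ⟨n, rfl⟩ x y
    rw [h0]
    constructor
    · intro h
      refine ⟨⟨fun σ hσ => ((hF σ hσ) S hS).2 ?_⟩,
        fun ψ hψ => h ψ (mem_insert_of_mem _ (Or.inl hψ))⟩
      exact h _ (mem_insert_of_mem _ (Or.inr ⟨σ, hσ, rfl⟩))
    · rintro ⟨h2, h3⟩ ψ (rfl | hψ | ⟨σ, hσ, rfl⟩)
      · intro x y; rfl
      · exact h3 ψ hψ
      · exact ((hF σ hσ) S hS).1 (h2.realize_of_mem σ hσ)
  have hK : ∀ S : L.Structure ℕ, code S ∈ KK (C2.inf e) R ↔
      Ordered S R ∧ Holds S (C2.inf e) := by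
    intro S
    show (toI (code S) ∈ Md (C2.inf e) ∧ SLO (rho (toI (code S)) R)) ↔ _
    rw [show toI (code S) = rel S from toI_ofI _, ordered_iff]
    exact and_comm
  rcases adapt hR (KK (C2.inf e) R) (Pool.Agent.H565R2.CO.main (C2.inf e) R) with
    ⟨g, hg⟩ | ⟨f, hf1, hf2, hf3⟩
  · left
    exact ⟨g, fun S h1 h2 h3 => hg S ((hK S).2 ⟨h1, (hmod S h1).2 ⟨h2, h3⟩⟩)⟩
  · right
    refine ⟨f, fun x => ?_, hf2, hf3⟩
    obtain ⟨h1, h2⟩ := (hK (f x)).1 (hf1 x)
    exact ⟨h1, (hmod _ h1).1 h2⟩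

end Pool.Agent.Results.MP_5df2c5_lc.CountingTwoVariableOrders
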