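import Pool.Agent.H31R3.SO.Semi

set_option autoImplicit false

/-!
The perfect-set form of Vaught's conjecture for semiorders with countably many unary predicates.
-/

namespace Pool.Agent.Results.MP_5df2c5_lc.Semiorders

/-- Structures on `ℕ`: a binary relation `x.1` and unary predicates `x.2 0, x.2 1, ...`. -/
abbrev Structures : Type := (ℕ → ℕ → Bool) × (ℕ → ℕ → Bool)

/-- `x.1` is a strict semiorder: irreflexive, if `m < n` and `k < l` then `m < l` or `k < n`, and if
`m < n < k` then every `l` satisfies `m < l` or `l < k`. (Equivalently: a strict partial order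
without suborders `2 + 2` and `3 + 1`.) -/
structure Semiorder (x : Structures) : Prop where
  irrefl : ∀ m, x.1 m m = false
  interval : ∀ m n k l, x.1 m n = true → x.1 k l = true → x.1 m l = true ∨ x.1 k n = true
  semi : ∀ m n k l, x.1 m n = true → x.1 n k = true → x.1 m l = true ∨ x.1 l k = true

/-- `σ` is an isomorphism from `x` to `y`. -/
def IsIso (σ : Equiv.Perm ℕ) (x y : Structures) : Prop :=
  (∀ m n, y.1 (σ m) (σ n) = x.1 m n) ∧ ∀ i m, y.2 i (σ m) = x.2 i m

/-- Every isomorphism-invariant Borel class `B` of semiorders on `ℕ` with countably many unary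
predicates contains countably many isomorphism types, or there is a continuous map from the Cantor
space into `B` with pairwise non-isomorphic values. -/
theorem result (B : Set Structures) (hB : MeasurableSet B) (hS : ∀ x ∈ B, Semiorder x)
    (hi : ∀ x ∈ B, ∀ (y : Structures) (σ : Equiv.Perm ℕ), IsIso σ x y → y ∈ B) :
    (∃ f : ℕ → Structures, ∀ x ∈ B, ∃ (n : ℕ) (σ : Equiv.Perm ℕ), IsIso σ (f n) x) ∨
    (∃ c : (ℕ → Bool) → Structures, Continuous c ∧ (∀ s, c s ∈ B) ∧
      ∀ s t, (∃ σ : Equiv.Perm ℕ, IsIso σ (c s) (c t)) → s = t) := by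
  have key : ∀ (σ : Equiv.Perm ℕ) (x y : Structures),
      IsIso σ x y ↔ y = Pool.Agent.H31R3.SO.relY σ x := by
    intro σ x y
    constructor
    · rintro ⟨h1, h2⟩
      refine Prod.ext ?_ ?_
      · funext m n
        have h3 := h1 (σ.symm m) (σ.symm n)
        rw [σ.apply_symm_apply, σ.apply_symm_apply] at h3
        exact h3
      · funext i m
        have h3 := h2 i (σ.symm m)
        rw [σ.apply_symm_apply] at h3
        exact h3
    · rintro rfl
      refine ⟨fun m n => ?_, fun i m => ?_⟩
      · show x.1 (σ.symm (σ m)) (σ.symm (σ n)) = x.1 m n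
        rw [σ.symm_apply_apply, σ.symm_apply_apply]
      · show x.2 i (σ.symm (σ m)) = x.2 i m
        rw [σ.symm_apply_apply]
  rcases Pool.Agent.H31R3.SO.semi_main B hB
    (fun x hx => ⟨(hS x hx).irrefl, (hS x hx).interval, (hS x hx).semi⟩)
    (fun x hx σ => hi x hx _ σ ((key σ x _).2 rfl)) with ⟨f, hf⟩ | ⟨g, hg, hgB, hgi⟩
  · left
    refine ⟨f, fun x hx => ?_⟩
    obtain ⟨n, σ, h⟩ := hf x hx
    exact ⟨n, σ, (key σ _ _).2 h⟩
  · right
    refine ⟨g, hg, hgB, ?_⟩
    rintro s t ⟨σ, h⟩
    exact hgi s t ⟨σ, (key σ _ _).1 h⟩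

end Pool.Agent.Results.MP_5df2c5_lc.Semiorders
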